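import Mathlib

set_option autoImplicit false

/-!
# A counterexample to Adam's conjecture (1964) for simple digraphs

The digraph `G(m)` has eight vertices `z_i, z_i'` (`i` in `Z/4`) and four independent pools
`P_0,...,P_3` of `m` vertices each.  Both copies of `z_i` send arcs to both copies of `z_{i+1}` and to
every vertex of `P_i`; every vertex of `P_i` sends arcs to both copies of `z_{i+2}`.
It has no loops, no multiple arcs and no 2-cycles.

* A directed cycle uses each `z`-vertex at most once.  Counting arcs by classes, a directed cycle that uses
  some arc `z_i -> z_{i+1}` visits at most 5 pool vertices, and a directed cycle that uses no such arc lives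
  in one parity class and visits at most 4.  So an arc at a pool vertex lies on `O(m^4)` directed cycles and
  an arc `z_i -> z_{i+1}` on `O(m^5)`.
* When an arc is reversed, the reversed arc lies on `Omega(m^5)` resp. `Omega(m^6)` directed cycles
  (explicit closed walks of length 14).

Hence for large `m` reversing ANY arc raises the number of directed cycles.  (An exact count outside Lean
shows that `m = 7`, i.e. 36 vertices, already works.)

In this file: directed cycles as minimal nonempty balanced arc sets.
-/

namespace Pool.Agent.AdamSimple

/-- `S` is balanced with respect to the incidence map `φ` (tail, head). -/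
def Bal {A V : Type*} [DecidableEq V] (φ : A → V × V) (S : Finset A) : Prop :=
  ∀ x : V, (S.filter (fun a => (φ a).1 = x)).card = (S.filter (fun a => (φ a).2 = x)).card

/-- the set of directed cycles (as arc sets). -/
def Cyc {A V : Type*} [DecidableEq V] (φ : A → V × V) (E : Finset A) : Set (Finset A) :=
  {S | S ⊆ E ∧ S.Nonempty ∧ Bal φ S ∧ ∀ T ⊆ S, T.Nonempty → Bal φ T → T = S}

/-- closed under successor in a cyclic index set implies everything. -/
lemma fin_closed {r : ℕ} [NeZero r] (I : Finset (Fin r)) (hne : I.Nonempty)
    (h : ∀ i ∈ I, i + 1 ∈ I) : I = Finset.univ := by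
  obtain ⟨i0, hi0⟩ := hne
  have key : ∀ n : ℕ, i0 + n • (1 : Fin r) ∈ I := by
    intro n
    induction n with
    | zero => simpa using hi0
    | succ n ih =>
      rw [succ_nsmul, ← add_assoc]
      exact h _ ih
  apply Finset.eq_univ_of_forall
  intro j
  have h1 : (j - i0).val • (1 : Fin r) = j - i0 := by
    have hv : ∀ n : ℕ, (n • (1 : Fin r)).val = n % r := by
      intro n
      induction n with
      | zero => simp
      | succ n ih =>
        rw [succ_nsmul, Fin.val_add, ih, Fin.val_one', ← Nat.add_mod]
    apply Fin.ext
    rw [hv]
    exact Nat.mod_eq_of_lt (j - i0).isLt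
  have h2 := key (j - i0).val
  rw [h1] at h2
  simpa using h2

/-- a list of arcs forming a simple closed directed walk is a cycle. -/
lemma cyc_of_cycle {A V : Type*} [DecidableEq A] [DecidableEq V] {r : ℕ} [NeZero r]
    (φ : A → V × V) (E : Finset A) (h : Fin r → A) (g : Fin r → V)
    (hg : Function.Injective g) (hh : ∀ k, φ (h k) = (g k, g (k + 1))) (hE : ∀ k, h k ∈ E) :
    Finset.univ.image h ∈ Cyc φ E := by
  have hinj : Function.Injective h := by
    intro a b hab
    have := hh a
    rw [hab, hh b] at this
    exact (hg (Prod.mk.inj this).1).symm
  -- generic card formulas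
  have c1 : ∀ (I : Finset (Fin r)) (x : V),
      ((I.image h).filter (fun a => (φ a).1 = x)).card = (I.filter (fun k => g k = x)).card := by
    intro I x
    rw [Finset.filter_image, Finset.card_image_of_injective _ hinj]
    congr 1
    ext k
    simp [hh]
  have c2 : ∀ (I : Finset (Fin r)) (x : V),
      ((I.image h).filter (fun a => (φ a).2 = x)).card = (I.filter (fun k => g (k + 1) = x)).card := by
    intro I x
    rw [Finset.filter_image, Finset.card_image_of_injective _ hinj]
    congr 1
    ext k
    simp [hh]
  refine ⟨?_, ?_, ?_, ?_⟩
  · intro a ha
    obtain ⟨k, -, rfl⟩ := Finset.mem_image.1 ha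
    exact hE k
  · exact ⟨h 0, Finset.mem_image_of_mem _ (Finset.mem_univ _)⟩
  · intro x
    rw [c1, c2]
    symm
    apply Finset.card_bij (fun k _ => k + 1)
    · intro k hk
      simpa using hk
    · intro a _ b _ hab
      exact add_right_cancel hab
    · intro b hb
      refine ⟨b - 1, ?_, by simp⟩
      simpa using hb
  · intro T hT hTne hbal
    -- T = image of I
    let I : Finset (Fin r) := Finset.univ.filter (fun k => h k ∈ T)
    have hTI : T = I.image h := by
      ext a
      constructor
      · intro ha
        obtain ⟨k, -, rfl⟩ := Finset.mem_image.1 (hT ha)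
        exact Finset.mem_image_of_mem _ (by simp [I, ha])
      · intro ha
        obtain ⟨k, hk, rfl⟩ := Finset.mem_image.1 ha
        simpa [I] using hk
    have hI : I = Finset.univ := by
      apply fin_closed
      · rw [hTI] at hTne
        exact Finset.image_nonempty.1 hTne
      · intro i hi
        have hx := hbal (g (i + 1))
        rw [hTI, c1, c2] at hx
        have hpos : 0 < (I.filter (fun k => g (k + 1) = g (i + 1))).card := by
          apply Finset.card_pos.2
          exact ⟨i, by simp [hi]⟩
        rw [← hx] at hpos
        obtain ⟨k, hk⟩ := Finset.card_pos.1 hpos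
        rw [Finset.mem_filter] at hk
        rw [← hg hk.2]
        exact hk.1
    rw [hTI, hI]

end Pool.Agent.AdamSimple
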