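import Pool.Agent.AdamSimple.Basic

set_option autoImplicit false

namespace Pool.Agent.AdamSimple

/-- in a minimal balanced arc set every vertex has at most one outgoing arc. -/
lemma fst_inj {V : Type*} [Fintype V] [DecidableEq V] {E S : Finset (V × V)}
    (hS : S ∈ Cyc (fun a : V × V => a) E) :
    ∀ a ∈ S, ∀ b ∈ S, a.1 = b.1 → a = b := by
  classical
  obtain ⟨-, hne, hbal, hmin⟩ := hS
  have hsucc : ∀ y x, (y, x) ∈ S → ∃ z, (x, z) ∈ S := by
    intro y x hyx
    have hx := hbal x
    have hpos : 0 < (S.filter (fun a => a.2 = x)).card :=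
      Finset.card_pos.2 ⟨(y, x), by simp [hyx]⟩
    rw [← hx] at hpos
    obtain ⟨a, ha⟩ := Finset.card_pos.1 hpos
    rw [Finset.mem_filter] at ha
    obtain ⟨ha1, ha2⟩ := ha
    refine ⟨a.2, ?_⟩
    rw [← ha2]
    exact ha1
  let X := {x : V // ∃ z, (x, z) ∈ S}
  have hf : ∀ x : X, ∃ y : X, (x.1, y.1) ∈ S := by
    rintro ⟨x, z, hz⟩
    exact ⟨⟨z, hsucc x z hz⟩, hz⟩
  choose f hf using hf
  haveI : Nonempty X := by
    obtain ⟨a, ha⟩ := hne
    exact ⟨⟨a.1, a.2, ha⟩⟩
  -- a periodic point
  obtain ⟨x0, hx0⟩ : ∃ x : X, x ∈ Function.periodicPts f := by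
    obtain ⟨x1⟩ := (inferInstance : Nonempty X)
    obtain ⟨n, m, hnm, heq⟩ := Finite.exists_ne_map_eq_of_infinite (fun n : ℕ => f^[n] x1)
    have key : ∀ n m : ℕ, n < m → f^[n] x1 = f^[m] x1 → ∃ x : X, x ∈ Function.periodicPts f := by
      intro n m hlt heq
      refine ⟨f^[n] x1, Function.mk_mem_periodicPts (Nat.sub_pos_of_lt hlt) ?_⟩
      unfold Function.IsPeriodicPt Function.IsFixedPt
      rw [← Function.iterate_add_apply, Nat.sub_add_cancel hlt.le]
      exact heq.symm
    rcases lt_or_gt_of_ne hnm with h | h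
    · exact key n m h heq
    · exact key m n h heq.symm
  let P : Finset X := Finset.univ.filter (fun x => x ∈ Function.periodicPts f)
  let T : Finset (V × V) := P.image (fun x => (x.1, (f x).1))
  have hinj : Function.Injective (fun x : X => ((x.1, (f x).1) : V × V)) := by
    intro x y hxy
    exact Subtype.ext (Prod.mk.inj hxy).1
  have hTS : T ⊆ S := by
    intro a ha
    obtain ⟨x, -, rfl⟩ := Finset.mem_image.1 ha
    exact hf x
  have hTne : T.Nonempty := by
    refine ⟨(x0.1, (f x0).1), Finset.mem_image_of_mem _ ?_⟩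
    simp [P, hx0]
  have hbij := Function.bijOn_periodicPts f
  have hTbal : Bal (fun a : V × V => a) T := by
    intro v
    show (T.filter (fun a => a.1 = v)).card = (T.filter (fun a => a.2 = v)).card
    have e1 : (T.filter (fun a => a.1 = v)).card = (P.filter (fun x => x.1 = v)).card := by
      simp only [T]
      rw [Finset.filter_image, Finset.card_image_of_injective _ hinj]
    have e2 : (T.filter (fun a => a.2 = v)).card = (P.filter (fun x => (f x).1 = v)).card := by
      simp only [T]
      rw [Finset.filter_image, Finset.card_image_of_injective _ hinj]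
    rw [e1, e2]
    symm
    apply Finset.card_bij (fun x _ => f x)
    · intro x hx
      simp only [P, Finset.mem_filter, Finset.mem_univ, true_and] at hx ⊢
      exact ⟨hbij.mapsTo hx.1, hx.2⟩
    · intro x hx y hy hxy
      simp only [P, Finset.mem_filter, Finset.mem_univ, true_and] at hx hy
      exact hbij.injOn hx.1 hy.1 hxy
    · intro y hy
      simp only [P, Finset.mem_filter, Finset.mem_univ, true_and] at hy
      obtain ⟨x, hx, hxy⟩ := hbij.surjOn hy.1
      refine ⟨x, ?_, hxy⟩
      simp only [P, Finset.mem_filter, Finset.mem_univ, true_and]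
      refine ⟨hx, ?_⟩
      rw [hxy]
      exact hy.2
  have hTeq := hmin T hTS hTne hTbal
  intro a ha b hb hab
  rw [← hTeq] at ha hb
  obtain ⟨x, -, rfl⟩ := Finset.mem_image.1 ha
  obtain ⟨y, -, rfl⟩ := Finset.mem_image.1 hb
  have : x = y := Subtype.ext hab
  rw [this]

/-- class version of balancedness. -/
lemma bal_class {V : Type*} [Fintype V] [DecidableEq V] {S : Finset (V × V)}
    (hbal : Bal (fun a : V × V => a) S) (P : V → Prop) [DecidablePred P] :
    (S.filter (fun a => P a.1)).card = (S.filter (fun a => P a.2)).card := by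
  classical
  have h1 : (S.filter (fun a => P a.1)).card
      = ∑ x ∈ Finset.univ.filter P, (S.filter (fun a => a.1 = x)).card := by
    rw [Finset.card_eq_sum_card_fiberwise (f := fun a : V × V => a.1)
      (t := Finset.univ.filter P)]
    · apply Finset.sum_congr rfl
      intro x hx
      congr 1
      ext a
      simp only [Finset.mem_filter, Finset.mem_univ, true_and] at hx ⊢
      constructor
      · rintro ⟨⟨h, _⟩, h2⟩
        exact ⟨h, h2⟩
      · rintro ⟨h, h2⟩
        exact ⟨⟨h, by rw [h2]; exact hx⟩, h2⟩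
    · intro a ha
      simp at ha ⊢
      exact ha.2
  have h2 : (S.filter (fun a => P a.2)).card
      = ∑ x ∈ Finset.univ.filter P, (S.filter (fun a => a.2 = x)).card := by
    rw [Finset.card_eq_sum_card_fiberwise (f := fun a : V × V => a.2)
      (t := Finset.univ.filter P)]
    · apply Finset.sum_congr rfl
      intro x hx
      congr 1
      ext a
      simp only [Finset.mem_filter, Finset.mem_univ, true_and] at hx ⊢
      constructor
      · rintro ⟨⟨h, _⟩, h2⟩
        exact ⟨h, h2⟩
      · rintro ⟨h, h2⟩
        exact ⟨⟨h, by rw [h2]; exact hx⟩, h2⟩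
    · intro a ha
      simp at ha ⊢
      exact ha.2
  rw [h1, h2]
  exact Finset.sum_congr rfl (fun x _ => hbal x)

end Pool.Agent.AdamSimple
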