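import Pool.Agent.AdamSimple.Func

set_option autoImplicit false

namespace Pool.Agent.AdamSimple

/-- tags: (is it a pool vertex?, class in `Z/4`, copy). -/
abbrev Tag := Bool × Fin 4 × Bool

/-- adjacency of tags: `z_i → z_{i+1}`, `z_i → pool_i → z_{i+2}`. -/
def tadj (t u : Tag) : Bool :=
  (!t.1 && !u.1 && (u.2.1 == t.2.1 + 1)) || (!t.1 && u.1 && (u.2.1 == t.2.1)) ||
    (t.1 && !u.1 && (u.2.1 == t.2.1 + 2))

variable {V : Type*} [Fintype V] [DecidableEq V] {M : ℕ} [NeZero M]

/-- A vertex is good if it is a pool vertex or has index zero. -/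
def good (σ : V ≃ Tag × Fin M) (x : V) : Prop := (σ x).1.1 = true ∨ (σ x).2 = 0

instance (σ : V ≃ Tag × Fin M) : DecidablePred (good σ) := fun _ => by
  unfold good; infer_instance

/-- the arc set of the digraph. -/
def E (σ : V ≃ Tag × Fin M) : Finset (V × V) :=
  Finset.univ.filter (fun a => tadj (σ a.1).1 (σ a.2).1 = true ∧ good σ a.1 ∧ good σ a.2)

lemma mem_E (σ : V ≃ Tag × Fin M) (a : V × V) :
    a ∈ E σ ↔ tadj (σ a.1).1 (σ a.2).1 = true ∧ good σ a.1 ∧ good σ a.2 := by
  simp [E]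

/-- pool vertices used by an arc set -/
def used (σ : V ≃ Tag × Fin M) (S : Finset (V × V)) : Finset V :=
  (S.filter (fun a => (σ a.1).1.1 = true)).image Prod.fst

/-- number of arcs of `S` from class `(b,i)` to class `(c,j)` -/
def cnt (σ : V ≃ Tag × Fin M) (S : Finset (V × V)) (b : Bool) (i : Fin 4) (c : Bool) (j : Fin 4) : ℕ :=
  (S.filter (fun a => (σ a.1).1.1 = b ∧ (σ a.1).1.2.1 = i ∧ (σ a.2).1.1 = c ∧ (σ a.2).1.2.1 = j)).card

lemma card_split {A : Type*} [DecidableEq A] (S : Finset A) (P Q R : A → Prop) [DecidablePred P] [DecidablePred Q]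
    [DecidablePred R] (h : ∀ a ∈ S, P a ↔ (Q a ∨ R a)) (hd : ∀ a ∈ S, Q a → R a → False) :
    (S.filter P).card = (S.filter Q).card + (S.filter R).card := by
  rw [← Finset.card_union_of_disjoint]
  · congr 1
    ext a
    simp only [Finset.mem_filter, Finset.mem_union]
    constructor
    · rintro ⟨h1, h2⟩
      rcases (h a h1).1 h2 with h3 | h3
      · exact Or.inl ⟨h1, h3⟩
      · exact Or.inr ⟨h1, h3⟩
    · rintro (⟨h1, h2⟩ | ⟨h1, h2⟩)
      · exact ⟨h1, (h a h1).2 (Or.inl h2)⟩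
      · exact ⟨h1, (h a h1).2 (Or.inr h2)⟩
  · rw [Finset.disjoint_filter]
    intro a ha hq hr
    exact hd a ha hq hr

/-- tag-level facts, by computation -/
lemma tadj_cases (t u : Tag) (h : tadj t u = true) :
    (t.1 = false ∧ u.1 = false ∧ u.2.1 = t.2.1 + 1) ∨
    (t.1 = false ∧ u.1 = true ∧ u.2.1 = t.2.1) ∨
    (t.1 = true ∧ u.1 = false ∧ u.2.1 = t.2.1 + 2) := by
  revert t u
  decide

section counts

variable (σ : V ≃ Tag × Fin M) {S : Finset (V × V)} (hS : S ∈ Cyc (fun a : V × V => a) (E σ))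

include hS

lemma arc_cases (a : V × V) (ha : a ∈ S) :
    ((σ a.1).1.1 = false ∧ (σ a.2).1.1 = false ∧ (σ a.2).1.2.1 = (σ a.1).1.2.1 + 1) ∨
    ((σ a.1).1.1 = false ∧ (σ a.2).1.1 = true ∧ (σ a.2).1.2.1 = (σ a.1).1.2.1) ∨
    ((σ a.1).1.1 = true ∧ (σ a.2).1.1 = false ∧ (σ a.2).1.2.1 = (σ a.1).1.2.1 + 2) :=
  tadj_cases _ _ ((mem_E σ a).1 (hS.1 ha)).1

lemma good_fst (a : V × V) (ha : a ∈ S) : good σ a.1 := ((mem_E σ a).1 (hS.1 ha)).2.1
lemma good_snd (a : V × V) (ha : a ∈ S) : good σ a.2 := ((mem_E σ a).1 (hS.1 ha)).2.2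

/-- pool transit: in-arcs of pool `i` equal out-arcs of pool `i`. -/
lemma pool_bal (i : Fin 4) : cnt σ S false i true i = cnt σ S true i false (i + 2) := by
  have h := bal_class (hS.2.2.1) (fun x => (σ x).1.1 = true ∧ (σ x).1.2.1 = i)
  have h1 : (S.filter (fun a => (σ a.1).1.1 = true ∧ (σ a.1).1.2.1 = i)).card
      = cnt σ S true i false (i + 2) := by
    unfold cnt
    congr 1
    apply Finset.filter_congr
    intro a ha
    rcases arc_cases σ hS a ha with ⟨h1, h2, h3⟩ | ⟨h1, h2, h3⟩ | ⟨h1, h2, h3⟩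
    · simp [h1]
    · simp [h1]
    · constructor
      · rintro ⟨h4, h5⟩
        exact ⟨h4, h5, h2, by rw [h3, h5]⟩
      · rintro ⟨h4, h5, -, -⟩
        exact ⟨h4, h5⟩
  have h2 : (S.filter (fun a => (σ a.2).1.1 = true ∧ (σ a.2).1.2.1 = i)).card
      = cnt σ S false i true i := by
    unfold cnt
    congr 1
    apply Finset.filter_congr
    intro a ha
    rcases arc_cases σ hS a ha with ⟨h1, h2, h3⟩ | ⟨h1, h2, h3⟩ | ⟨h1, h2, h3⟩
    · simp [h2]
    · constructor
      · rintro ⟨h4, h5⟩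
        exact ⟨h1, by rw [← h3]; exact h5, h4, h5⟩
      · rintro ⟨-, -, h4, h5⟩
        exact ⟨h4, h5⟩
    · simp [h2]
  rw [← h1, ← h2]
  exact h.symm

/-- out-arcs of class `z_i`. -/
lemma z_out (i : Fin 4) :
    (S.filter (fun a => (σ a.1).1.1 = false ∧ (σ a.1).1.2.1 = i)).card
      = cnt σ S false i false (i + 1) + cnt σ S false i true i := by
  unfold cnt
  apply card_split
  · intro a ha
    rcases arc_cases σ hS a ha with ⟨h1, h2, h3⟩ | ⟨h1, h2, h3⟩ | ⟨h1, h2, h3⟩
    · constructor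
      · rintro ⟨h4, h5⟩
        exact Or.inl ⟨h4, h5, h2, by rw [h3, h5]⟩
      · rintro (⟨h4, h5, -, -⟩ | ⟨h4, h5, -, -⟩) <;> exact ⟨h4, h5⟩
    · constructor
      · rintro ⟨h4, h5⟩
        exact Or.inr ⟨h4, h5, h2, by rw [h3, h5]⟩
      · rintro (⟨h4, h5, -, -⟩ | ⟨h4, h5, -, -⟩) <;> exact ⟨h4, h5⟩
    · simp [h1]
  · rintro a - ⟨-, -, h1, -⟩ ⟨-, -, h2, -⟩
    rw [h1] at h2
    exact Bool.noConfusion h2

/-- in-arcs of class `z_{i+2}`. -/
lemma z_in (i : Fin 4) :
    (S.filter (fun a => (σ a.2).1.1 = false ∧ (σ a.2).1.2.1 = i)).card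
      = cnt σ S false (i + 3) false i + cnt σ S true (i + 2) false i := by
  unfold cnt
  have e1 : ∀ j : Fin 4, j + 1 = i → j = i + 3 := by revert i; decide
  have e2 : ∀ j : Fin 4, j + 2 = i → j = i + 2 := by revert i; decide
  apply card_split
  · intro a ha
    rcases arc_cases σ hS a ha with ⟨h1, h2, h3⟩ | ⟨h1, h2, h3⟩ | ⟨h1, h2, h3⟩
    · constructor
      · rintro ⟨h4, h5⟩
        refine Or.inl ⟨h1, e1 _ ?_, h4, h5⟩
        rw [← h3, h5]
      · rintro (⟨-, -, h4, h5⟩ | ⟨-, -, h4, h5⟩) <;> exact ⟨h4, h5⟩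
    · simp [h2]
    · constructor
      · rintro ⟨h4, h5⟩
        refine Or.inr ⟨h1, e2 _ ?_, h4, h5⟩
        rw [← h3, h5]
      · rintro (⟨-, -, h4, h5⟩ | ⟨-, -, h4, h5⟩) <;> exact ⟨h4, h5⟩
  · rintro a - ⟨h1, -, -, -⟩ ⟨h2, -, -, -⟩
    rw [h1] at h2
    exact Bool.noConfusion h2

lemma z_bal (i : Fin 4) :
    cnt σ S false i false (i + 1) + cnt σ S false i true i
      = cnt σ S false (i + 3) false i + cnt σ S true (i + 2) false i := by
  rw [← z_out σ hS, ← z_in σ hS]
  exact bal_class (hS.2.2.1) (fun x => (σ x).1.1 = false ∧ (σ x).1.2.1 = i)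

lemma z_out_le (i : Fin 4) :
    cnt σ S false i false (i + 1) + cnt σ S false i true i ≤ 2 := by
  rw [← z_out σ hS]
  have : (S.filter (fun a => (σ a.1).1.1 = false ∧ (σ a.1).1.2.1 = i)).card
      ≤ (Finset.univ : Finset Bool).card := by
    apply Finset.card_le_card_of_injOn (fun a => (σ a.1).1.2.2)
    · intro a _
      simp
    · intro a ha b hb hab
      simp only [Finset.coe_filter, Set.mem_ofPred_eq] at ha hb
      obtain ⟨ha, ha1, ha2⟩ := ha
      obtain ⟨hb, hb1, hb2⟩ := hb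
      apply fst_inj hS a ha b hb
      apply σ.injective
      have hga := good_fst σ hS a ha
      have hgb := good_fst σ hS b hb
      unfold good at hga hgb
      rw [ha1] at hga
      rw [hb1] at hgb
      have hga' : (σ a.1).2 = 0 := by simpa using hga
      have hgb' : (σ b.1).2 = 0 := by simpa using hgb
      have h3 : (σ a.1).1.2.2 = (σ b.1).1.2.2 := hab
      ext1
      · ext1
        · rw [ha1, hb1]
        · ext1
          · rw [ha2, hb2]
          · exact h3
      · rw [hga', hgb']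
  simpa using this

/-- number of pool arcs -/
lemma used_card_le :
    (used σ S).card ≤ cnt σ S true 0 false 2 + cnt σ S true 1 false 3 + cnt σ S true 2 false 0
      + cnt σ S true 3 false 1 := by
  have h0 : (used σ S).card ≤ (S.filter (fun a => (σ a.1).1.1 = true)).card := Finset.card_image_le
  have h1 : (S.filter (fun a => (σ a.1).1.1 = true)).card
      = (S.filter (fun a => (σ a.1).1.1 = true ∧ ((σ a.1).1.2.1 = 0 ∨ (σ a.1).1.2.1 = 1))).card
        + (S.filter (fun a => (σ a.1).1.1 = true ∧ ((σ a.1).1.2.1 = 2 ∨ (σ a.1).1.2.1 = 3))).card := by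
    apply card_split
    · intro a _
      have : ∀ j : Fin 4, (j = 0 ∨ j = 1) ∨ (j = 2 ∨ j = 3) := by decide
      constructor
      · intro h
        rcases this (σ a.1).1.2.1 with h2 | h2
        · exact Or.inl ⟨h, h2⟩
        · exact Or.inr ⟨h, h2⟩
      · rintro (⟨h, -⟩ | ⟨h, -⟩) <;> exact h
    · rintro a - ⟨-, h1⟩ ⟨-, h2⟩
      have : ∀ j : Fin 4, (j = 0 ∨ j = 1) → (j = 2 ∨ j = 3) → False := by decide
      exact this _ h1 h2
  have h2 : (S.filter (fun a => (σ a.1).1.1 = true ∧ ((σ a.1).1.2.1 = 0 ∨ (σ a.1).1.2.1 = 1))).card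
      = cnt σ S true 0 false 2 + cnt σ S true 1 false 3 := by
    unfold cnt
    apply card_split
    · intro a ha
      rcases arc_cases σ hS a ha with ⟨h1, h2, h3⟩ | ⟨h1, h2, h3⟩ | ⟨h1, h2, h3⟩
      · simp [h1]
      · simp [h1]
      · rw [h3]
        simp only [h1, h2, true_and]
        generalize (σ a.1).1.2.1 = j
        revert j
        decide
    · rintro a - ⟨-, h1, -⟩ ⟨-, h2, -⟩
      rw [h1] at h2
      exact absurd h2 (by decide)
  have h3 : (S.filter (fun a => (σ a.1).1.1 = true ∧ ((σ a.1).1.2.1 = 2 ∨ (σ a.1).1.2.1 = 3))).card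
      = cnt σ S true 2 false 0 + cnt σ S true 3 false 1 := by
    unfold cnt
    apply card_split
    · intro a ha
      rcases arc_cases σ hS a ha with ⟨h1, h2, h3⟩ | ⟨h1, h2, h3⟩ | ⟨h1, h2, h3⟩
      · simp [h1]
      · simp [h1]
      · rw [h3]
        simp only [h1, h2, true_and]
        generalize (σ a.1).1.2.1 = j
        revert j
        decide
    · rintro a - ⟨-, h1, -⟩ ⟨-, h2, -⟩
      rw [h1] at h2
      exact absurd h2 (by decide)
  omega

/-- If there is no arc `z_i → z_{i+1}` at all, then only one parity class is used. -/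
lemma parity_case
    (h0 : ∀ i : Fin 4, cnt σ S false i false (i + 1) = 0) :
    (cnt σ S true 0 false 2 = 0 ∧ cnt σ S true 2 false 0 = 0) ∨
    (cnt σ S true 1 false 3 = 0 ∧ cnt σ S true 3 false 1 = 0) := by
  -- even part
  have hnz : ∀ a ∈ S, ¬ ((σ a.1).1.1 = false ∧ (σ a.2).1.1 = false ∧
      (σ a.2).1.2.1 = (σ a.1).1.2.1 + 1) := by
    rintro a ha ⟨h1, h2, h3⟩
    have := h0 (σ a.1).1.2.1
    unfold cnt at this
    rw [Finset.card_eq_zero, Finset.filter_eq_empty_iff] at this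
    exact this ha ⟨h1, rfl, h2, h3⟩
  let ev : V → Prop := fun x => (σ x).1.2.1 = 0 ∨ (σ x).1.2.1 = 2
  have hev : ∀ a ∈ S, (ev a.1 ↔ ev a.2) := by
    intro a ha
    rcases arc_cases σ hS a ha with h | ⟨h1, h2, h3⟩ | ⟨h1, h2, h3⟩
    · exact absurd h (hnz a ha)
    · simp only [ev]
      rw [h3]
    · simp only [ev]
      rw [h3]
      generalize (σ a.1).1.2.1 = j
      revert j
      decide
  haveI : DecidablePred ev := fun x => by unfold ev; infer_instance
  let T : Finset (V × V) := S.filter (fun a => ev a.1)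
  have hTbal : Bal (fun a : V × V => a) T := by
    intro x
    show (T.filter (fun a => a.1 = x)).card = (T.filter (fun a => a.2 = x)).card
    by_cases hx : ev x
    · have e1 : T.filter (fun a => a.1 = x) = S.filter (fun a => a.1 = x) := by
        ext a
        simp only [T, Finset.mem_filter]
        constructor
        · rintro ⟨⟨h1, _⟩, h2⟩
          exact ⟨h1, h2⟩
        · rintro ⟨h1, h2⟩
          exact ⟨⟨h1, by rw [h2]; exact hx⟩, h2⟩
      have e2 : T.filter (fun a => a.2 = x) = S.filter (fun a => a.2 = x) := by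
        ext a
        simp only [T, Finset.mem_filter]
        constructor
        · rintro ⟨⟨h1, _⟩, h2⟩
          exact ⟨h1, h2⟩
        · rintro ⟨h1, h2⟩
          exact ⟨⟨h1, by rw [hev a h1, h2]; exact hx⟩, h2⟩
      rw [e1, e2]
      exact hS.2.2.1 x
    · have e1 : T.filter (fun a => a.1 = x) = ∅ := by
        rw [Finset.filter_eq_empty_iff]
        intro a ha h
        rw [Finset.mem_filter] at ha
        exact hx (by rw [← h]; exact ha.2)
      have e2 : T.filter (fun a => a.2 = x) = ∅ := by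
        rw [Finset.filter_eq_empty_iff]
        intro a ha h
        rw [Finset.mem_filter] at ha
        exact hx (by rw [← h]; exact (hev a ha.1).1 ha.2)
      rw [e1, e2]
  by_cases hT : T.Nonempty
  · right
    have hTS := hS.2.2.2 T (Finset.filter_subset _ _) hT hTbal
    have hall : ∀ a ∈ S, ev a.1 := by
      intro a ha
      rw [← hTS] at ha
      exact (Finset.mem_filter.1 ha).2
    unfold cnt
    constructor
    · rw [Finset.card_eq_zero, Finset.filter_eq_empty_iff]
      rintro a ha ⟨-, h, -⟩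
      have := hall a ha
      simp only [ev] at this
      rw [h] at this
      exact absurd this (by decide)
    · rw [Finset.card_eq_zero, Finset.filter_eq_empty_iff]
      rintro a ha ⟨-, h, -⟩
      have := hall a ha
      simp only [ev] at this
      rw [h] at this
      exact absurd this (by decide)
  · left
    rw [Finset.not_nonempty_iff_eq_empty, Finset.filter_eq_empty_iff] at hT
    unfold cnt
    constructor
    · rw [Finset.card_eq_zero, Finset.filter_eq_empty_iff]
      rintro a ha ⟨-, h, -⟩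
      exact hT ha (Or.inl h)
    · rw [Finset.card_eq_zero, Finset.filter_eq_empty_iff]
      rintro a ha ⟨-, h, -⟩
      exact hT ha (Or.inr h)

/-- The key structural bound: a directed cycle uses at most five pool vertices. -/
theorem used_le_five : (used σ S).card ≤ 5 := by
  have hu := used_card_le σ hS
  have b0 := z_bal σ hS 0
  have b1 := z_bal σ hS 1
  have b2 := z_bal σ hS 2
  have b3 := z_bal σ hS 3
  have l0 := z_out_le σ hS 0
  have l1 := z_out_le σ hS 1
  have l2 := z_out_le σ hS 2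
  have l3 := z_out_le σ hS 3
  have p0 := pool_bal σ hS 0
  have p1 := pool_bal σ hS 1
  have p2 := pool_bal σ hS 2
  have p3 := pool_bal σ hS 3
  have hpar := parity_case σ hS
  have hall : (cnt σ S false 0 false 1 = 0 ∧ cnt σ S false 1 false 2 = 0 ∧
      cnt σ S false 2 false 3 = 0 ∧ cnt σ S false 3 false 0 = 0) →
      ∀ i : Fin 4, cnt σ S false i false (i + 1) = 0 := by
    rintro ⟨h0, h1, h2, h3⟩ i
    fin_cases i
    · exact h0
    · exact h1
    · exact h2
    · exact h3
  have e : ((0 : Fin 4) + 1 = 1) ∧ ((1 : Fin 4) + 1 = 2) ∧ ((2 : Fin 4) + 1 = 3) ∧ ((3 : Fin 4) + 1 = 0)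
    ∧ ((0 : Fin 4) + 2 = 2) ∧ ((1 : Fin 4) + 2 = 3) ∧ ((2 : Fin 4) + 2 = 0) ∧ ((3 : Fin 4) + 2 = 1)
    ∧ ((0 : Fin 4) + 3 = 3) ∧ ((1 : Fin 4) + 3 = 0) ∧ ((2 : Fin 4) + 3 = 1) ∧ ((3 : Fin 4) + 3 = 2) := by
    decide
  obtain ⟨e01, e11, e21, e31, e02, e12, e22, e32, e03, e13, e23, e33⟩ := e
  simp only [e01, e11, e21, e31, e02, e12, e22, e32, e03, e13, e23, e33] at b0 b1 b2 b3 l0 l1 l2 l3 p0 p1 p2 p3
  by_cases hz : (cnt σ S false 0 false 1 = 0 ∧ cnt σ S false 1 false 2 = 0 ∧
      cnt σ S false 2 false 3 = 0 ∧ cnt σ S false 3 false 0 = 0)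
  · have := hpar (hall hz)
    omega
  · omega

end counts

end Pool.Agent.AdamSimple
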