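import Pool.Agent.AdamSimple.Graph

set_option autoImplicit false

namespace Pool.Agent.AdamSimple

variable {V : Type*} [Fintype V] [DecidableEq V] {M : ℕ} [NeZero M]

/-- reversing the arc `e`. -/
def rev (e : V × V) : V × V → V × V := fun a => if a = e then a.swap else a

/-- Lower bound for the number of cycles through the reversed arc. -/
theorem lower (σ : V ≃ Tag × Fin M) (e : V × V) (u : ℕ) (ct : Fin 14 → Tag)
    (hct : Function.Injective ct)
    (hstep : ∀ k : Fin 14, k ≠ 13 → tadj (ct k) (ct (k + 1)) = true)
    (hadj' : tadj (ct 0) (ct 13) = true)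
    (ix : (Fin u → Fin M) → Fin 14 → Fin M)
    (hgood : ∀ j k, (ct k).1 = true ∨ ix j k = 0)
    (hrec : ∀ l : Fin u, ∃ k, ∀ j, ix j k = j l)
    (he : ∀ j, e = (σ.symm (ct 0, ix j 0), σ.symm (ct 13, ix j 13))) :
    M ^ u ≤ Set.ncard {S | S ∈ Cyc (rev e) (E σ) ∧ e ∈ S} := by
  classical
  let g : (Fin u → Fin M) → Fin 14 → V := fun j k => σ.symm (ct k, ix j k)
  let h : (Fin u → Fin M) → Fin 14 → V × V := fun j k => if k = 13 then e else (g j k, g j (k + 1))
  have hg : ∀ j, Function.Injective (g j) := by
    intro j k l hkl
    have := σ.symm.injective hkl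
    exact hct (Prod.mk.inj this).1
  have hne : ∀ j (k : Fin 14), k ≠ 13 → (g j k, g j (k + 1)) ≠ e := by
    intro j k hk heq
    rw [he j] at heq
    have h1 : g j k = g j 0 := (Prod.mk.inj heq).1
    have h2 : g j (k + 1) = g j 13 := (Prod.mk.inj heq).2
    have h3 := hg j h1
    have h4 := hg j h2
    rw [h3] at h4
    exact absurd h4 (by decide)
  have hgoodg : ∀ j k, good σ (g j k) := by
    intro j k
    unfold good
    simp only [g, Equiv.apply_symm_apply]
    exact hgood j k
  have hE : ∀ j k, h j k ∈ E σ := by
    intro j k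
    by_cases hk : k = 13
    · simp only [h, hk, if_true]
      rw [mem_E, he j]
      refine ⟨?_, hgoodg j 0, hgoodg j 13⟩
      simp only [Equiv.apply_symm_apply]
      exact hadj'
    · simp only [h, hk, if_false]
      rw [mem_E]
      refine ⟨?_, hgoodg j k, hgoodg j (k + 1)⟩
      simp only [g, Equiv.apply_symm_apply]
      exact hstep k hk
  have hrev : ∀ j k, rev e (h j k) = (g j k, g j (k + 1)) := by
    intro j k
    by_cases hk : k = 13
    · subst hk
      simp only [h, if_true, rev]
      rw [he j]
      rfl
    · simp only [h, hk, if_false, rev]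
      rw [if_neg (hne j k hk)]
  have hcyc : ∀ j, Finset.univ.image (h j) ∈ Cyc (rev e) (E σ) := fun j =>
    cyc_of_cycle (rev e) (E σ) (h j) (g j) (hg j) (hrev j) (hE j)
  have hmem : ∀ j, Finset.univ.image (h j) ∈ {S | S ∈ Cyc (rev e) (E σ) ∧ e ∈ S} := by
    intro j
    refine ⟨hcyc j, ?_⟩
    exact Finset.mem_image.2 ⟨13, Finset.mem_univ _, by simp [h]⟩
  have hinj : Function.Injective (fun j => Finset.univ.image (h j)) := by
    intro j j' hjj
    -- every position is recovered
    have hpos : ∀ k : Fin 14, k ≠ 13 → g j k = g j' k ∧ g j (k + 1) = g j' (k + 1) := by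
      intro k hk
      have h1 : h j k ∈ Finset.univ.image (h j') := by
        rw [← show Finset.univ.image (h j) = Finset.univ.image (h j') from hjj]
        exact Finset.mem_image_of_mem _ (Finset.mem_univ _)
      obtain ⟨l, -, hl⟩ := Finset.mem_image.1 h1
      have hl' : h j k = (g j k, g j (k + 1)) := by simp [h, hk]
      by_cases hl13 : l = 13
      · exfalso
        have : h j' l = e := by simp [h, hl13]
        rw [this, hl'] at hl
        exact hne j k hk hl.symm
      · have h2 : h j' l = (g j' l, g j' (l + 1)) := by simp [h, hl13]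
        rw [h2, hl'] at hl
        have h3 := (Prod.mk.inj hl).1
        have h4 := (Prod.mk.inj hl).2
        have h5 : l = k := by
          have := σ.symm.injective h3
          exact hct (Prod.mk.inj this).1
        rw [h5] at h3 h4
        exact ⟨h3.symm, h4.symm⟩
    have hall : ∀ k : Fin 14, g j k = g j' k := by
      intro k
      by_cases hk : k = 13
      · have := (hpos 12 (by decide)).2
        rw [hk]
        exact this
      · exact (hpos k hk).1
    funext l
    obtain ⟨k, hk⟩ := hrec l
    have h1 := σ.symm.injective (hall k)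
    have h2 := (Prod.mk.inj h1).2
    rw [hk j, hk j'] at h2
    exact h2
  have hcard : (Set.range (fun j => Finset.univ.image (h j))).ncard = M ^ u := by
    rw [← Set.image_univ, Set.ncard_image_of_injective _ hinj, Set.ncard_univ]
    simp [Nat.card_eq_fintype_card]
  rw [← hcard]
  apply Set.ncard_le_ncard
  · rintro _ ⟨j, rfl⟩
    exact hmem j
  · exact Set.toFinite _

end Pool.Agent.AdamSimple
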