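import Pool.Agent.AdamSimple.Upper
import Pool.Agent.AdamSimple.Lower

set_option autoImplicit false

namespace Pool.Agent.AdamSimple

/-- template for an arc `z_i(a) → z_{i+1}(b)` -/
def ctA (i : Fin 4) (a b : Bool) : Fin 14 → Tag :=
  ![(false,i,a),(true,i,false),(false,i+2,false),(true,i+2,false),(false,i,!a),(true,i,true),
    (false,i+2,true),(false,i+3,false),(true,i+3,false),(false,i+1,!b),(true,i+1,false),
    (false,i+3,true),(true,i+3,true),(false,i+1,b)]

/-- template for an arc `z_i(a) → pool_i(s)` -/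
def ctB (i : Fin 4) (a s : Bool) : Fin 14 → Tag :=
  ![(false,i,a),(true,i,!s),(false,i+2,false),(false,i+3,false),(true,i+3,false),(false,i+1,false),
    (true,i+1,false),(false,i+3,true),(true,i+3,true),(false,i+1,true),(false,i+2,true),
    (true,i+2,false),(false,i,!a),(true,i,s)]

/-- template for an arc `pool_{k+2}(s) → z_k(c)` -/
def ctC (k : Fin 4) (c s : Bool) : Fin 14 → Tag :=
  ![(true,k+2,s),(false,k,!c),(true,k,false),(false,k+2,false),(false,k+3,false),(true,k+3,false),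
    (false,k+1,false),(true,k+1,false),(false,k+3,true),(true,k+3,true),(false,k+1,true),
    (false,k+2,true),(true,k+2,!s),(false,k,c)]

set_option maxRecDepth 100000 in
lemma ctA_inj : ∀ (i : Fin 4) (a b : Bool), Function.Injective (ctA i a b) := by
  decide

set_option maxRecDepth 100000 in
lemma ctB_inj : ∀ (i : Fin 4) (a b : Bool), Function.Injective (ctB i a b) := by
  decide

set_option maxRecDepth 100000 in
lemma ctC_inj : ∀ (i : Fin 4) (a b : Bool), Function.Injective (ctC i a b) := by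
  decide

set_option maxRecDepth 100000 in
lemma ctA_step : ∀ (i : Fin 4) (a b : Bool), ∀ k : Fin 14, k ≠ 13 → tadj (ctA i a b k) (ctA i a b (k + 1)) = true := by
  decide

set_option maxRecDepth 100000 in
lemma ctB_step : ∀ (i : Fin 4) (a b : Bool), ∀ k : Fin 14, k ≠ 13 → tadj (ctB i a b k) (ctB i a b (k + 1)) = true := by
  decide

set_option maxRecDepth 100000 in
lemma ctC_step : ∀ (i : Fin 4) (a b : Bool), ∀ k : Fin 14, k ≠ 13 → tadj (ctC i a b k) (ctC i a b (k + 1)) = true := by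
  decide

variable {V : Type*} [Fintype V] [DecidableEq V] {M : ℕ} [NeZero M]

lemma bal_rev_iff (e : V × V) (S : Finset (V × V)) (he : e ∉ S) :
    Bal (rev e) S ↔ Bal (fun a : V × V => a) S := by
  have h : ∀ a ∈ S, rev e a = a := by
    intro a ha
    unfold rev
    rw [if_neg]
    rintro rfl
    exact he ha
  unfold Bal
  have h1 : ∀ x, S.filter (fun a => (rev e a).1 = x) = S.filter (fun a => a.1 = x) := by
    intro x
    apply Finset.filter_congr
    intro a ha
    rw [h a ha]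
  have h2 : ∀ x, S.filter (fun a => (rev e a).2 = x) = S.filter (fun a => a.2 = x) := by
    intro x
    apply Finset.filter_congr
    intro a ha
    rw [h a ha]
  simp only [h1, h2]

lemma cyc_not_mem (e : V × V) (E : Finset (V × V)) (S : Finset (V × V)) (he : e ∉ S) :
    S ∈ Cyc (rev e) E ↔ S ∈ Cyc (fun a : V × V => a) E := by
  unfold Cyc
  simp only [Set.mem_ofPred_eq]
  rw [bal_rev_iff e S he]
  constructor
  · rintro ⟨h1, h2, h3, h4⟩
    refine ⟨h1, h2, h3, fun T hT hne hb => h4 T hT hne ?_⟩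
    rwa [bal_rev_iff e T (fun h => he (hT h))]
  · rintro ⟨h1, h2, h3, h4⟩
    refine ⟨h1, h2, h3, fun T hT hne hb => h4 T hT hne ?_⟩
    rwa [bal_rev_iff e T (fun h => he (hT h))] at hb

lemma pool_mem_used (σ : V ≃ Tag × Fin M) {S : Finset (V × V)}
    (hS : S ∈ Cyc (fun a : V × V => a) (E σ)) {x : V} (hx : x ∈ Zs σ ∨ x ∈ used σ S)
    (hp : (σ x).1.1 = true) : x ∈ used σ S := by
  rcases hx with hx | hx
  · simp only [Zs, Finset.mem_filter, Finset.mem_univ, true_and] at hx
    rw [hp] at hx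
    exact absurd hx.1 (by decide)
  · exact hx

theorem through (σ : V ≃ Tag × Fin M) (hM : 2 ^ 216 ≤ M) (e : V × V) (he : e ∈ E σ) :
    Set.ncard {S | S ∈ Cyc (fun a : V × V => a) (E σ) ∧ e ∈ S} ≤
      Set.ncard {S | S ∈ Cyc (rev e) (E σ) ∧ e ∈ S} := by
  obtain ⟨hadj, hg1, hg2⟩ := (mem_E σ e).1 he
  have hc := tadj_cases _ _ hadj
  have est5 : (16 * M) ^ 5 * 2 ^ 196 ≤ M ^ 6 := by
    calc (16 * M) ^ 5 * 2 ^ 196 = 2 ^ 216 * M ^ 5 := by ring
      _ ≤ M * M ^ 5 := Nat.mul_le_mul_right _ hM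
      _ = M ^ 6 := by ring
  have est4 : (16 * M) ^ 4 * 2 ^ 196 ≤ M ^ 5 := by
    calc (16 * M) ^ 4 * 2 ^ 196 = 2 ^ 212 * M ^ 4 := by ring
      _ ≤ 2 ^ 216 * M ^ 4 := Nat.mul_le_mul_right _ (Nat.pow_le_pow_right (by norm_num) (by norm_num))
      _ ≤ M * M ^ 4 := Nat.mul_le_mul_right _ hM
      _ = M ^ 5 := by ring
  obtain ⟨x, y⟩ := e
  simp only at hadj hg1 hg2 hc
  obtain ⟨⟨⟨px, ix, ax⟩, jx⟩, hx⟩ : ∃ t, σ x = t := ⟨_, rfl⟩
  obtain ⟨⟨⟨py, iy, ay⟩, jy⟩, hy⟩ : ∃ t, σ y = t := ⟨_, rfl⟩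
  unfold good at hg1 hg2
  rw [hx] at hg1
  rw [hy] at hg2
  rw [hx, hy] at hc
  simp only at hc hg1 hg2
  have hx' : x = σ.symm ((px, ix, ax), jx) := by rw [← hx]; simp
  have hy' : y = σ.symm ((py, iy, ay), jy) := by rw [← hy]; simp
  rcases hc with ⟨h1, h2, h3⟩ | ⟨h1, h2, h3⟩ | ⟨h1, h2, h3⟩
  · subst h1 h2 h3
    have hjx : jx = 0 := by simpa using hg1
    have hjy : jy = 0 := by simpa using hg2
    subst hjx hjy
    refine le_trans (upper σ (x, y) 5 le_rfl ∅ (by simp) (fun _ _ _ => by simp) (by simp)) ?_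
    refine le_trans est5 ?_
    refine lower σ (x, y) 6 (ctA ix ax ay) (ctA_inj ix ax ay) (ctA_step ix ax ay) ?_
      (fun j => ![0, j 0, 0, j 1, 0, j 2, 0, 0, j 3, 0, j 4, 0, j 5, 0]) ?_ ?_ ?_
    · show tadj (false, ix, ax) (false, ix + 1, ay) = true
      simp [tadj]
    · intro j k
      fin_cases k <;> simp [ctA]
    · intro l
      fin_cases l
      · exact ⟨1, fun j => rfl⟩
      · exact ⟨3, fun j => rfl⟩
      · exact ⟨5, fun j => rfl⟩
      · exact ⟨8, fun j => rfl⟩
      · exact ⟨10, fun j => rfl⟩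
      · exact ⟨12, fun j => rfl⟩
    · intro j
      rw [hx', hy']
      rfl
  · subst h1 h2 h3
    have hjx : jx = 0 := by simpa using hg1
    subst hjx
    refine le_trans (upper σ (x, y) 4 (by norm_num) {y} (by simp) ?_ (by simp)) ?_
    · intro S hS heS
      rw [Finset.singleton_subset_iff]
      exact pool_mem_used σ hS (sub_prod σ hS _ heS).2 (by rw [hy])
    refine le_trans est4 ?_
    refine lower σ (x, y) 5 (ctB iy ax ay) (ctB_inj iy ax ay) (ctB_step iy ax ay) ?_
      (fun j => ![0, j 0, 0, 0, j 1, 0, j 2, 0, j 3, 0, 0, j 4, 0, jy]) ?_ ?_ ?_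
    · show tadj (false, iy, ax) (true, iy, ay) = true
      simp [tadj]
    · intro j k
      fin_cases k <;> simp [ctB]
    · intro l
      fin_cases l
      · exact ⟨1, fun j => rfl⟩
      · exact ⟨4, fun j => rfl⟩
      · exact ⟨6, fun j => rfl⟩
      · exact ⟨8, fun j => rfl⟩
      · exact ⟨11, fun j => rfl⟩
    · intro j
      rw [hx', hy']
      rfl
  · subst h1 h2
    have haux : ∀ i j : Fin 4, j = i + 2 → i = j + 2 := by decide
    have h3' : ix = iy + 2 := haux _ _ h3
    clear h3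
    subst h3'
    have hjy : jy = 0 := by simpa using hg2
    subst hjy
    refine le_trans (upper σ (x, y) 4 (by norm_num) {x} (by simp) ?_ (by simp)) ?_
    · intro S hS heS
      rw [Finset.singleton_subset_iff]
      exact pool_mem_used σ hS (sub_prod σ hS _ heS).1 (by rw [hx])
    refine le_trans est4 ?_
    refine lower σ (x, y) 5 (ctC iy ay ax) (ctC_inj iy ay ax) (ctC_step iy ay ax) ?_
      (fun j => ![jx, 0, j 0, 0, 0, j 1, 0, j 2, 0, j 3, 0, 0, j 4, 0]) ?_ ?_ ?_
    · show tadj (true, iy + 2, ax) (false, iy, ay) = true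
      have haux2 : ∀ (i : Fin 4) (p q : Bool), tadj (true, i + 2, p) (false, i, q) = true := by
        decide
      exact haux2 _ _ _
    · intro j k
      fin_cases k <;> simp [ctC]
    · intro l
      fin_cases l
      · exact ⟨2, fun j => rfl⟩
      · exact ⟨5, fun j => rfl⟩
      · exact ⟨7, fun j => rfl⟩
      · exact ⟨9, fun j => rfl⟩
      · exact ⟨12, fun j => rfl⟩
    · intro j
      rw [hx', hy']
      rfl

/-- Reversing any arc does not lower the number of directed cycles. -/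
theorem no_drop (σ : V ≃ Tag × Fin M) (hM : 2 ^ 216 ≤ M) (e : V × V) (he : e ∈ E σ) :
    Set.ncard (Cyc (fun a : V × V => a) (E σ)) ≤ Set.ncard (Cyc (rev e) (E σ)) := by
  classical
  have h1 := Set.ncard_inter_add_ncard_sdiff_eq_ncard (Cyc (fun a : V × V => a) (E σ))
    {S | e ∈ S} (Set.toFinite _)
  have h2 := Set.ncard_inter_add_ncard_sdiff_eq_ncard (Cyc (rev e) (E σ))
    {S | e ∈ S} (Set.toFinite _)
  rw [← h1, ← h2]
  have h3 : Cyc (fun a : V × V => a) (E σ) \ {S | e ∈ S} = Cyc (rev e) (E σ) \ {S | e ∈ S} := by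
    ext S
    simp only [Set.mem_sdiff, Set.mem_ofPred_eq]
    constructor
    · rintro ⟨h, h'⟩
      exact ⟨(cyc_not_mem e _ S h').2 h, h'⟩
    · rintro ⟨h, h'⟩
      exact ⟨(cyc_not_mem e _ S h').1 h, h'⟩
  rw [h3]
  exact Nat.add_le_add_right (through σ hM e he) _

lemma loopless (σ : V ≃ Tag × Fin M) : ∀ a ∈ E σ, a.1 ≠ a.2 := by
  intro a ha h
  have h1 := ((mem_E σ a).1 ha).1
  rw [h] at h1
  have : ∀ t : Tag, tadj t t = false := by decide
  rw [this] at h1
  exact absurd h1 (by decide)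

lemma has_cycle (σ : V ≃ Tag × Fin M) : ∃ S, S ∈ Cyc (fun a : V × V => a) (E σ) := by
  refine ⟨_, cyc_of_cycle (r := 4) (fun a : V × V => a) (E σ)
    (fun k => (σ.symm ((false, k, false), 0), σ.symm ((false, k + 1, false), 0)))
    (fun k => σ.symm ((false, k, false), 0)) ?_ (fun k => rfl) ?_⟩
  · intro k l hkl
    have := σ.symm.injective hkl
    exact (Prod.mk.inj (Prod.mk.inj (Prod.mk.inj this).1).2).1
  · intro k
    rw [mem_E]
    simp only [Equiv.apply_symm_apply, good]
    refine ⟨?_, Or.inr trivial, Or.inr trivial⟩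
    revert k
    decide

end Pool.Agent.AdamSimple
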