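import Pool.Agent.AdamSimple.Graph

set_option autoImplicit false

namespace Pool.Agent.AdamSimple

variable {V : Type*} [Fintype V] [DecidableEq V] {M : ℕ} [NeZero M]

/-- the eight `z` vertices -/
def Zs (σ : V ≃ Tag × Fin M) : Finset V :=
  Finset.univ.filter (fun x => (σ x).1.1 = false ∧ (σ x).2 = 0)

lemma Zs_card (σ : V ≃ Tag × Fin M) : (Zs σ).card ≤ 8 := by
  have : (Zs σ).card ≤ (Finset.univ : Finset (Fin 4 × Bool)).card := by
    apply Finset.card_le_card_of_injOn (fun x => (σ x).1.2)
    · intro x _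
      simp
    · intro x hx y hy hxy
      simp only [Zs, Finset.coe_filter, Finset.mem_univ, true_and, Set.mem_ofPred_eq] at hx hy
      apply σ.injective
      ext1
      · ext1
        · rw [hx.1, hy.1]
        · exact hxy
      · rw [hx.2, hy.2]
  simpa using this

lemma sub_prod (σ : V ≃ Tag × Fin M) {S : Finset (V × V)} (hS : S ∈ Cyc (fun a : V × V => a) (E σ)) :
    ∀ a ∈ S, (a.1 ∈ Zs σ ∨ a.1 ∈ used σ S) ∧ (a.2 ∈ Zs σ ∨ a.2 ∈ used σ S) := by
  have h1 : ∀ a ∈ S, a.1 ∈ Zs σ ∨ a.1 ∈ used σ S := by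
    intro a ha
    have hg := good_fst σ hS a ha
    by_cases h : (σ a.1).1.1 = true
    · right
      exact Finset.mem_image.2 ⟨a, by simp [ha, h], rfl⟩
    · left
      rcases hg with hg | hg
      · exact absurd hg h
      · simp only [Zs, Finset.mem_filter, Finset.mem_univ, true_and]
        exact ⟨by simpa using h, hg⟩
  intro a ha
  refine ⟨h1 a ha, ?_⟩
  have hb := hS.2.2.1 a.2
  have hpos : 0 < (S.filter (fun c => c.2 = a.2)).card := Finset.card_pos.2 ⟨a, by simp [ha]⟩
  have hpos2 : 0 < (S.filter (fun c => c.1 = a.2)).card := by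
    have : (S.filter (fun c => c.1 = a.2)).card = (S.filter (fun c => c.2 = a.2)).card := hb
    omega
  obtain ⟨c, hc⟩ := Finset.card_pos.1 hpos2
  rw [Finset.mem_filter] at hc
  have := h1 c hc.1
  rw [hc.2] at this
  exact this

lemma exists_cover {t : ℕ} (U : Finset V) (hU : U.card ≤ t) (v0 : V) :
    ∃ g : Fin t → V, ∀ u ∈ U, ∃ k, g k = u := by
  have : Fintype.card U ≤ Fintype.card (Fin t) := by simpa using hU
  obtain ⟨f⟩ := Function.Embedding.nonempty_of_card_le this
  refine ⟨Function.extend f (fun u : U => u.1) (fun _ => v0), ?_⟩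
  intro u hu
  exact ⟨f ⟨u, hu⟩, f.injective.extend_apply _ _ ⟨u, hu⟩⟩

/-- Upper bound for the number of cycles through an arc. -/
theorem upper (σ : V ≃ Tag × Fin M) (e : V × V) (t : ℕ) (ht : t ≤ 5) (b : Finset V) (hb1 : b.card ≤ 1)
    (hb : ∀ S ∈ Cyc (fun a : V × V => a) (E σ), e ∈ S → b ⊆ used σ S)
    (htb : 5 ≤ t + b.card) :
    Set.ncard {S | S ∈ Cyc (fun a : V × V => a) (E σ) ∧ e ∈ S} ≤ (16 * M) ^ t * 2 ^ 196 := by
  classical
  let F : (Fin t → V) → Finset (Finset (V × V)) := fun g =>
    ((Zs σ ∪ b ∪ Finset.univ.image g) ×ˢ (Zs σ ∪ b ∪ Finset.univ.image g)).powerset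
  have hsub : {S | S ∈ Cyc (fun a : V × V => a) (E σ) ∧ e ∈ S} ⊆
      (↑((Finset.univ : Finset (Fin t → V)).biUnion F) : Set (Finset (V × V))) := by
    rintro S ⟨hS, heS⟩
    have hbS := hb S hS heS
    have h5 := used_le_five σ hS
    have hcard : (used σ S \ b).card ≤ t := by
      rw [Finset.card_sdiff_of_subset hbS]
      omega
    obtain ⟨g, hg⟩ := exists_cover (used σ S \ b) hcard e.1
    rw [Finset.mem_coe, Finset.mem_biUnion]
    refine ⟨g, Finset.mem_univ _, ?_⟩
    simp only [F, Finset.mem_powerset]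
    have hused : ∀ x ∈ used σ S, x ∈ Zs σ ∪ b ∪ Finset.univ.image g := by
      intro x hx
      by_cases hxb : x ∈ b
      · simp [hxb]
      · obtain ⟨k, hk⟩ := hg x (Finset.mem_sdiff.2 ⟨hx, hxb⟩)
        simp only [Finset.mem_union, Finset.mem_image, Finset.mem_univ, true_and]
        exact Or.inr ⟨k, hk⟩
    have hz : ∀ x ∈ Zs σ, x ∈ Zs σ ∪ b ∪ Finset.univ.image g := by
      intro x hx
      simp [hx]
    intro a ha
    obtain ⟨h1, h2⟩ := sub_prod σ hS a ha
    rw [Finset.mem_product]
    constructor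
    · rcases h1 with h | h
      · exact hz _ h
      · exact hused _ h
    · rcases h2 with h | h
      · exact hz _ h
      · exact hused _ h
  calc Set.ncard {S | S ∈ Cyc (fun a : V × V => a) (E σ) ∧ e ∈ S}
      ≤ Set.ncard (↑((Finset.univ : Finset (Fin t → V)).biUnion F) : Set (Finset (V × V))) :=
        Set.ncard_le_ncard hsub (Finset.finite_toSet _)
    _ = ((Finset.univ : Finset (Fin t → V)).biUnion F).card := Set.ncard_coe_finset _
    _ ≤ (Finset.univ : Finset (Fin t → V)).card * 2 ^ 196 := by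
        apply Finset.card_biUnion_le_card_mul
        intro g _
        simp only [F, Finset.card_powerset, Finset.card_product]
        apply Nat.pow_le_pow_right (by norm_num)
        have h1 : (Zs σ ∪ b ∪ Finset.univ.image g).card ≤ 14 := by
          have h2 := Finset.card_union_le (Zs σ ∪ b) (Finset.univ.image g)
          have h3 := Finset.card_union_le (Zs σ) b
          have h4 := Zs_card σ
          have h5 : (Finset.univ.image g).card ≤ t := by
            have := Finset.card_image_le (s := (Finset.univ : Finset (Fin t))) (f := g)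
            simpa using this
          omega
        calc _ ≤ 14 * 14 := Nat.mul_le_mul h1 h1
          _ = 196 := by norm_num
    _ = (16 * M) ^ t * 2 ^ 196 := by
        congr 1
        rw [Finset.card_univ, Fintype.card_fun, Fintype.card_fin, Fintype.card_congr σ]
        simp [Fintype.card_prod]

end Pool.Agent.AdamSimple
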